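import Pool.Graph.R_pool_sql_team_seeded_3997aac3.Q227.WD.Red

/-!
# WC-DOM is PSPACE-complete already for bipartite graphs and for split graphs

The library's reduction from quantified formulas gives a graph whose vertices are the vertices of a
hypergraph (the labels with second coordinate at most `4`) and copies of its edges (the labels with
second coordinate at least `5`), where a vertex is adjacent to the copies of the edges containing
it. This graph is bipartite. Staller's strategy only uses the neighbourhoods of the copies, and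
Dominator's strategy can only profit from further edges, so that all pairs of vertices of the
hypergraph may be joined as well; then the graph is a split graph.
-/

namespace Pool.Agent.Results.MP_2d136f_lc.BipartiteAndSplit

open Pool.Agent.NPC Pool.Agent.H623R2.PS Pool.Agent.H656R2.AK Pool.Agent.Q227.WD

/-- A split graph: the vertices are the disjoint union of a clique and an independent set. -/
def IsSplit {V : Type*} (G : SimpleGraph V) : Prop :=
  ∃ K : Set V, G.IsClique K ∧ G.IsIndepSet Kᶜ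

/-- The matrix is the adjacency matrix of a bipartite graph. -/
def Bip (M : List (List Bool)) : Prop :=
  ∃ (n : ℕ) (G : SimpleGraph (Fin n)), adjMatrix G = M ∧ G.IsBipartite

/-- The matrix is the adjacency matrix of a split graph. -/
def Spl (M : List (List Bool)) : Prop :=
  ∃ (n : ℕ) (G : SimpleGraph (Fin n)), adjMatrix G = M ∧ IsSplit G

/-! ### The graphs -/

/-- the adjacency of the library, and for `c = true` all pairs of vertices of the hypergraph -/
def cQ (c : Bool) (Q : QF) (x y : Pt) : Bool :=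
  aQ Q x y || (c && ((decide (x.2 < 5) && decide (y.2 < 5)) && !decide (x = y)))

theorem cQ_symm (c : Bool) (Q : QF) (x y : Pt) : cQ c Q x y = cQ c Q y x := by
  unfold cQ
  rw [aQ_symm]
  congr 2
  rw [Bool.and_comm (decide (x.2 < 5))]
  congr 2
  exact decide_eq_decide.2 eq_comm

theorem cQ_self (c : Bool) (Q : QF) (x : Pt) : cQ c Q x x = false := by
  unfold cQ
  rw [aQ_self]
  simp

/-- the game -/
abbrev GC (c : Bool) (Q : QF) : Set Pt → Set Pt → Prop :=
  LW {p | p ∈ vlQ Q} fun x y => cQ c Q x y = true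

theorem lw_mono {U : Set Pt} {A A' : Pt → Pt → Prop} (hA : ∀ x y, A x y → A' x y) {D S : Set Pt}
    (h : LW U A D S) : LW U A' D S := by
  induction h with
  | done h =>
    exact LW.done fun v hv => (h v hv).imp id fun ⟨u, hu, h⟩ => ⟨u, hu, hA _ _ h⟩
  | offer u v u1 v1 hu hv huv _ _ ih1 ih2 => exact LW.offer u v u1 v1 hu hv huv ih1 ih2
  | last u hu _ ih => exact LW.last u hu ih

theorem cQ_copy {c : Bool} {Q : QF} {u : Pt} {e k : ℕ} (h : cQ c Q u (e, 5 + k) = true) :
    aQ Q u (e, 5 + k) = true := by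
  unfold cQ at h
  rw [Bool.or_eq_true] at h
  rcases h with h | h
  · exact h
  · simp at h

theorem not_dom {c : Bool} {Q : QF} {sk : (ℕ → Bool) → ℕ → Bool} {D S : Set Pt} (I : Inv Q sk D S)
    (hcl : ∀ x, ∃ X, ES Q X ∧ ∀ p ∈ X, (exQ Q p.1 ∧ p.2 = 0) ∨
      ∃ i, (exQ Q i ∨ unQ Q i) ∧ p = L i (!sk x i)) :
    ¬ ∀ v ∈ {p | p ∈ vlQ Q}, v ∈ D ∨ ∃ u ∈ D, cQ c Q u v = true := by
  intro h
  obtain ⟨X, ⟨l, hl, hX⟩, hD⟩ := pos_alive I.dis hcl I.pos
  obtain ⟨e, he, rfl⟩ := List.getElem_of_mem hl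
  obtain ⟨k, hk, hkD⟩ := box_free I.dis I.box (by unfold nt; omega) he
  rcases h (e, 5 + k) (mem_vlQ.2 (Or.inr ⟨e, k, he, hk, rfl⟩)) with h | ⟨u, hu, h⟩
  · exact hkD h
  · have h := cQ_copy h
    unfold aQ at h
    rw [Bool.or_eq_true, hQ_iff, hQ_iff] at h
    rcases h with ⟨_, h⟩ | ⟨⟨h, _⟩, _⟩
    · simp only at h
      rw [List.getD_eq_getElem _ _ he] at h
      exact hD u ((hX u).1 h) hu
    · simp only at h
      omega

theorem not_GC {c : Bool} {Q : QF} {sk : (ℕ → Bool) → ℕ → Bool} (K : SkH (exQ Q) (unQ Q) sk)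
    (hcl : ∀ x, ∃ X, ES Q X ∧ ∀ p ∈ X, (exQ Q p.1 ∧ p.2 = 0) ∨
      ∃ i, (exQ Q i ∨ unQ Q i) ∧ p = L i (!sk x i)) {D S : Set Pt} (h : GC c Q D S) :
    ¬ Inv Q sk D S := by
  induction h with
  | @done D S h => exact fun I => not_dom I hcl h
  | @offer D S u v u1 v1 hu hv huv h1 h2 ih1 ih2 =>
    intro I
    have fu : Fr D S u := ⟨fun h => hu (Or.inl h), fun h => hu (Or.inr h)⟩
    have fv : Fr D S v := ⟨fun h => hv (Or.inl h), fun h => hv (Or.inr h)⟩
    have du := mem_vlQ.1 u1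
    have dv := mem_vlQ.1 v1
    have hd1 : ∀ p ∈ insert v D, p ∉ insert u S := by
      rintro p (rfl | hp) (h | hp2)
      exacts [huv h.symm, hv (Or.inr hp2), hu (Or.inl (h ▸ hp)), I.dis _ hp hp2]
    have hd2 : ∀ p ∈ insert u D, p ∉ insert v S := by
      rintro p (rfl | hp) (h | hp2)
      exacts [huv h, hu (Or.inr hp2), hv (Or.inl (h ▸ hp)), I.dis _ hp hp2]
    by_cases hdum : 5 ≤ u.2 ∧ 5 ≤ v.2
    · by_cases hs : ¬ Sec (nt Q) S u.1 ∨ Sec (nt Q) S v.1
      · exact ih1 ⟨hd1, pos_dummy I.pos fv hdum.1 hdum.2,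
          box_step I.box hu du (Or.inr (Or.inr hs))⟩
      · push Not at hs
        exact ih2 ⟨hd2, pos_dummy I.pos fu hdum.2 hdum.1,
          box_step I.box hv dv (Or.inr (Or.inr (Or.inr hs.1)))⟩
    · rcases pos_step (hypE Q) K I.dis I.pos fu fv huv with h | h
      · exact ih1 ⟨hd1, h, box_step I.box hu du (by omega)⟩
      · exact ih2 ⟨hd2, h, box_step I.box hv dv (by omega)⟩
  | @last D S u hu h ih =>
    intro I
    refine not_dom I hcl (h.dom fun p hp => ?_)
    by_contra hc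
    have : p ∈ {p | p ∈ vlQ Q} \ (D ∪ S) :=
      ⟨hp, fun h => hc (h.imp id Or.inr)⟩
    rw [hu] at this
    exact hc (Or.inr (Or.inl this))

theorem false_imp' {c : Bool} {Q : QF} (hQ : QFwf Q)
    (h : evq Q.1 (fun w => evc w Q.2) = false) : ¬ GC c Q ∅ ∅ := by
  obtain ⟨sk, h1, h2, h3⟩ := exists_sk Q.1 _ h
  have K : SkH (exQ Q) (unQ Q) sk := ⟨fun x i hi => h1 x i hi, fun x x' i hx hi => h2 x x' i hx hi⟩
  have hcl : ∀ x, ∃ X, ES Q X ∧ ∀ p ∈ X, (exQ Q p.1 ∧ p.2 = 0) ∨
      ∃ i, (exQ Q i ∨ unQ Q i) ∧ p = L i (!sk x i) := by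
    intro x
    have h4 := h3 x
    unfold evc at h4
    rw [List.all_eq_false] at h4
    obtain ⟨c, hc, h4⟩ := h4
    refine ⟨clS Q c, es_cl hc, ?_⟩
    rintro p (hp | ⟨l, hl, rfl⟩)
    · exact Or.inl ⟨hp.1, hp.2.2⟩
    · have hlt := hQ c hc l hl
      refine Or.inr ⟨l.2, ex_or_un hlt, ?_⟩
      have h5 : ¬ (((List.range Q.1.length).map (sk x)).getD l.2 false == l.1) = true := fun h =>
        h4 (List.any_eq_true.2 ⟨l, hl, h⟩)
      rw [List.getD_eq_getElem _ _ (by simpa using hlt)] at h5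
      simp only [List.getElem_map, List.getElem_range, beq_iff_eq] at h5
      have h6 : l.1 = !sk x l.2 := by
        revert h5
        cases l.1 <;> cases sk x l.2 <;> simp
      rw [h6]
  intro hG
  refine not_GC K hcl hG ⟨fun p hp => absurd hp (by simp), Or.inr ⟨fun _ => false, ?_⟩,
    box_zero _ _ _⟩
  refine ⟨fun j _ => Or.inl fun k _ => ⟨by simp, by simp⟩, fun i _ => Or.inl ⟨⟨by simp, by simp⟩,
    ⟨by simp, by simp⟩⟩, fun i _ _ b => ⟨by simp, by simp⟩⟩

theorem GC_iff {c : Bool} {Q : QF} (hQ : QFwf Q) :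
    GC c Q ∅ ∅ ↔ evq Q.1 (fun w => evc w Q.2) = true := by
  constructor
  · intro h
    by_contra hc
    rw [Bool.not_eq_true] at hc
    exact false_imp' hQ hc h
  · intro h
    refine lw_mono (fun x y hxy => ?_) (true_imp hQ h)
    unfold cQ
    rw [Bool.or_eq_true]
    exact Or.inl hxy

/-- the matrix -/
def mxC (c : Bool) (Q : QF) : List (List Bool) :=
  (vlQ Q).map fun x => (vlQ Q).map fun y => cQ c Q x y

theorem mxC_iff {c : Bool} {Q : QF} (hQ : QFwf Q) :
    WCDom (mxC c Q) ↔ evq Q.1 (fun w => evc w Q.2) = true := by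
  have hs := cQ_symm c Q
  have hi := cQ_self c Q
  unfold mxC
  rw [← adjMatrix_listGraph' (vlQ Q) (cQ c Q) hs hi, wcDom_iff, ← GC_iff (c := c) hQ]
  have hinj : Function.Injective fun i : Fin (vlQ Q).length => (vlQ Q)[i] := by
    intro i j h
    exact Fin.ext ((List.Nodup.getElem_inj_iff (nodup_vlQ Q)).1 h)
  have hU : ∀ p, p ∈ {p | p ∈ vlQ Q} ↔ ∃ v : Fin (vlQ Q).length, (vlQ Q)[v] = p := by
    intro p
    constructor
    · intro h
      obtain ⟨i, hi, h⟩ := List.getElem_of_mem (show p ∈ vlQ Q from h)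
      exact ⟨⟨i, hi⟩, h⟩
    · rintro ⟨v, rfl⟩
      exact List.getElem_mem v.isLt
  constructor
  · intro h
    have := lw_of_domWins (fun i : Fin (vlQ Q).length => (vlQ Q)[i]) hinj hU
      (A := fun x y => cQ c Q x y = true) (fun u v => Iff.rfl) h
    rw [Set.image_empty] at this
    exact this
  · intro h
    exact domWins_of_lw (fun i : Fin (vlQ Q).length => (vlQ Q)[i]) hinj hU
      (A := fun x y => cQ c Q x y = true) (fun u v => Iff.rfl) h ∅ ∅ (by rw [Set.image_empty])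
      (by rw [Set.image_empty])

theorem aQ_lt {Q : QF} {x y : Pt} (h : aQ Q x y = true) :
    (x.2 < 5 ∧ 5 ≤ y.2) ∨ (y.2 < 5 ∧ 5 ≤ x.2) := by
  unfold aQ at h
  rw [Bool.or_eq_true, hQ_iff, hQ_iff] at h
  exact h.imp (fun h => h.1) (fun h => h.1)

theorem bip_mxC (Q : QF) : Bip (mxC false Q) := by
  refine ⟨_, R671.listGraph (vlQ Q) (cQ false Q) (cQ_symm _ Q) (cQ_self _ Q),
    adjMatrix_listGraph' (vlQ Q) (cQ false Q) (cQ_symm _ Q) (cQ_self _ Q), ?_⟩
  refine ⟨SimpleGraph.Coloring.mk (fun i => if ((vlQ Q)[i]).2 < 5 then 0 else 1) ?_⟩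
  intro i j hij
  have h : cQ false Q (vlQ Q)[i] (vlQ Q)[j] = true := hij
  unfold cQ at h
  rw [Bool.false_and, Bool.or_false] at h
  rcases aQ_lt h with ⟨h1, h2⟩ | ⟨h1, h2⟩
  · rw [if_pos h1, if_neg (by omega)]
    decide
  · rw [if_neg (by omega), if_pos h1]
    decide

theorem spl_mxC (Q : QF) : Spl (mxC true Q) := by
  refine ⟨_, R671.listGraph (vlQ Q) (cQ true Q) (cQ_symm _ Q) (cQ_self _ Q),
    adjMatrix_listGraph' (vlQ Q) (cQ true Q) (cQ_symm _ Q) (cQ_self _ Q), ?_⟩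
  refine ⟨{i | ((vlQ Q)[i]).2 < 5}, ?_, ?_⟩
  · intro i hi j hj hij
    show cQ true Q (vlQ Q)[i] (vlQ Q)[j] = true
    unfold cQ
    rw [Bool.or_eq_true]
    right
    have hne : (vlQ Q)[i] ≠ (vlQ Q)[j] := fun h =>
      hij (Fin.ext ((List.Nodup.getElem_inj_iff (nodup_vlQ Q)).1 h))
    simp only [Bool.true_and, Bool.and_eq_true, decide_eq_true_eq, Bool.not_eq_true',
      decide_eq_false_iff_not]
    exact ⟨⟨hi, hj⟩, hne⟩
  · intro i hi j hj _ hadj
    have h : cQ true Q (vlQ Q)[i] (vlQ Q)[j] = true := hadj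
    have hi' : ¬ ((vlQ Q)[i]).2 < 5 := hi
    have hj' : ¬ ((vlQ Q)[j]).2 < 5 := hj
    unfold cQ at h
    rw [Bool.or_eq_true] at h
    rcases h with h | h
    · rcases aQ_lt h with ⟨h1, _⟩ | ⟨h1, _⟩
      · exact hi' h1
      · exact hj' h1
    · simp only [Bool.true_and, Bool.and_eq_true, decide_eq_true_eq] at h
      exact hi' h.1.1

/-! ### Polynomial time -/

attribute [local irreducible] vlQ aQ

theorem poly_cQ (c : Bool) : NPC.Poly (fun p : QF × Pt × Pt => cQ c p.1 p.2.1 p.2.2) := by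
  unfold cQ
  have h := poly_aQ
  fun_prop

theorem poly_mxC (c : Bool) : NPC.Poly (mxC c) := by
  unfold mxC
  refine NPC.Poly.map poly_vlQ (F := fun Q x => (vlQ Q).map fun y => cQ c Q x y) ?_
  exact NPC.Poly.map (l := fun p : QF × Pt => vlQ p.1) (F := fun p y => cQ c p.1 p.2 y)
    (poly_vlQ.comp (NPC.Poly.fst NPC.Poly.id))
    ((poly_cQ c).comp (f := fun p : (QF × Pt) × Pt => (p.1.1, p.1.2, p.2)) (by fun_prop))

theorem red (c : Bool) {L : Set (List Bool)} (hL : InPSPACE L) :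
    ∃ f : List Bool → List Bool, PolyTime f ∧ (∀ x, x ∈ L ↔ f x ∈ lang WCDom) ∧
      ∀ x, ∃ Q : QF, f x = bits (mxC c Q) := by
  obtain ⟨f, hf, hwf, hf'⟩ := qbf_hard hL
  exact ⟨fun x => bits (mxC c (f x)), polyTime_bits ((poly_mxC c).comp hf),
    fun x => by rw [hf' x, bits_mem_lang, mxC_iff (hwf x)], fun x => ⟨f x, rfl⟩⟩

/-- **WC-DOM is PSPACE-complete already for bipartite graphs and for split graphs.** WC-DOM lies in
PSPACE, and every language in PSPACE has a polynomial-time many-one reduction to WC-DOM all of whose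
values encode bipartite graphs, and another one all of whose values encode split graphs. In
particular WC-DOM is PSPACE-complete. -/
theorem result : PSPACEComplete (lang WCDom) ∧
    ∀ L : Set (List Bool), InPSPACE L →
      (∃ f : List Bool → List Bool, PolyTime f ∧ (∀ x, x ∈ L ↔ f x ∈ lang WCDom) ∧
        ∀ x, f x ∈ lang Bip) ∧
      (∃ f : List Bool → List Bool, PolyTime f ∧ (∀ x, x ∈ L ↔ f x ∈ lang WCDom) ∧
        ∀ x, f x ∈ lang Spl) := by
  refine ⟨⟨wcDom_mem, fun L hL => ?_⟩, fun L hL => ⟨?_, ?_⟩⟩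
  · obtain ⟨f, hf, h, _⟩ := red false hL
    exact ⟨f, hf, h⟩
  · obtain ⟨f, hf, h, h'⟩ := red false hL
    refine ⟨f, hf, h, fun x => ?_⟩
    obtain ⟨Q, hQ⟩ := h' x
    rw [hQ, bits_mem_lang]
    exact bip_mxC Q
  · obtain ⟨f, hf, h, h'⟩ := red true hL
    refine ⟨f, hf, h, fun x => ?_⟩
    obtain ⟨Q, hQ⟩ := h' x
    rw [hQ, bits_mem_lang]
    exact spl_mxC Q

end Pool.Agent.Results.MP_2d136f_lc.BipartiteAndSplit
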